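import Pool.Agent.Helper28.LV.StN

/-!
# Project LV, MODULE DC: descent to the complex numbers
-/

set_option autoImplicit false

namespace Pool.Agent.Helper9.LV

open Pool.Agent.Helper14.CV (G0 Homog EqC act StFar)
open Pool.Agent.Helper28.WK Pool.Agent.Helper28.LV Pool.Agent.Helper14.WK

section maps

variable {R S : Type} [AddCommGroup R] [AddCommGroup S]

private lemma pr_map' (lam : R →+ S) (Φ : ℤ → ℤ → ℕ → R) (P : Polynomial ℤ) (x y : ℤ) :
    pr (fun x y i => lam (Φ x y i)) P x y = lam (pr Φ P x y) := by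
  simp only [pr, Polynomial.sum_def, map_sum, map_zsmul]

private lemma pr_add' (Φ Ψ : ℤ → ℤ → ℕ → R) (P : Polynomial ℤ) (x y : ℤ) :
    pr (fun x y i => Φ x y i + Ψ x y i) P x y = pr Φ P x y + pr Ψ P x y := by
  simp only [pr, Polynomial.sum_def, smul_add, Finset.sum_add_distrib]

private lemma L1S_map (lam : R →+ S) {p a : ℕ} {Φ Ψ : ℤ → ℤ → ℕ → R} (h : L1S p a Φ Ψ) :
    L1S p a (fun x y i => lam (Φ x y i)) (fun x y i => lam (Ψ x y i)) where
  hom i hi k x y hk hxy := congrArg lam (h.hom i hi k x y hk hxy)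
  inf i hi := by
    show lam (Ψ 1 0 i) = 0
    rw [h.inf i hi, map_zero]
  eqv α β γ δ hd i hi := by
    obtain ⟨c, hc⟩ := h.eqv α β γ δ hd i hi
    refine ⟨lam c, fun x y hxy => ?_⟩
    rw [pr_map']
    have := congrArg lam (hc x y hxy)
    rw [map_add] at this
    exact this
  rel t ht x y hxy := by
    have := congrArg lam (h.rel t ht x y hxy)
    rw [map_sub, map_zsmul, map_zsmul, map_zsmul, map_sub] at this
    exact this

private lemma L1S_congr {p a : ℕ} {Φ Φ' Ψ : ℤ → ℤ → ℕ → R} (h : L1S p a Φ Ψ)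
    (hΦ : ∀ t : ℕ, t ≤ 2 * a → ∀ x y : ℤ, (x ≠ 0 ∨ y ≠ 0) →
      Φ' x y t - Φ' 1 0 t = Φ x y t - Φ 1 0 t) : L1S p a Φ' Ψ where
  hom := h.hom
  inf := h.inf
  eqv := h.eqv
  rel t ht x y hxy := by
    rw [hΦ t ht x y hxy]
    exact h.rel t ht x y hxy

private lemma L1S_zero (p a : ℕ) : L1S p a (fun _ _ _ => (0 : R)) (fun _ _ _ => 0) where
  hom _ _ _ _ _ _ _ := rfl
  inf _ _ := rfl
  eqv α β γ δ hd i hi := ⟨0, fun x y _ => by
    simp [act, cp, pr, Polynomial.sum_def]⟩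
  rel t ht x y hxy := by simp

private lemma L1S_add {p a : ℕ} {Φ Ψ Φ' Ψ' : ℤ → ℤ → ℕ → R} (h : L1S p a Φ Ψ)
    (h' : L1S p a Φ' Ψ') :
    L1S p a (fun x y i => Φ x y i + Φ' x y i) (fun x y i => Ψ x y i + Ψ' x y i) where
  hom i hi k x y hk hxy := by
    have e1 := h.hom i hi k x y hk hxy
    have e2 := h'.hom i hi k x y hk hxy
    simp only [cp] at e1 e2 ⊢
    rw [e1, e2]
  inf i hi := by
    show Ψ 1 0 i + Ψ' 1 0 i = 0
    rw [h.inf i hi, h'.inf i hi, add_zero]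
  eqv α β γ δ hd i hi := by
    obtain ⟨c, hc⟩ := h.eqv α β γ δ hd i hi
    obtain ⟨c', hc'⟩ := h'.eqv α β γ δ hd i hi
    refine ⟨c + c', fun x y hxy => ?_⟩
    have e1 := hc x y hxy
    have e2 := hc' x y hxy
    rw [pr_add']
    simp only [act, cp] at e1 e2 ⊢
    rw [e1, e2]
    abel
  rel t ht x y hxy := by
    have e1 := h.rel t ht x y hxy
    have e2 := h'.rel t ht x y hxy
    have e3 : Φ x y t + Φ' x y t - (Φ 1 0 t + Φ' 1 0 t) =
      (Φ x y t - Φ 1 0 t) + (Φ' x y t - Φ' 1 0 t) := by abel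
    rw [e3, smul_add, e1, e2, smul_add, smul_add]
    abel

private lemma L1S_sum {ι : Type} (s : Finset ι) {p a : ℕ} (Φ Ψ : ι → ℤ → ℤ → ℕ → R)
    (h : ∀ j, L1S p a (Φ j) (Ψ j)) :
    L1S p a (fun x y i => ∑ j ∈ s, Φ j x y i) (fun x y i => ∑ j ∈ s, Ψ j x y i) := by
  classical
  induction s using Finset.induction_on with
  | empty => simpa using L1S_zero (R := R) p a
  | insert j s hj ih =>
    simp only [Finset.sum_insert hj]
    exact L1S_add (h j) ih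

end maps

theorem hDC : StDC := by
  intro hFG hFar hMap hDen p hp a hyp Φ hΦ
  obtain ⟨S, hS⟩ := hFG p a 1 ℂ inferInstance Φ hp.out hΦ
  -- the span of the values
  obtain ⟨W, hW⟩ : ∃ W : Submodule ℚ ℂ, W = Submodule.span ℚ (S : Set ℂ) := ⟨_, rfl⟩
  haveI hfin : Module.Finite ℚ W := by
    rw [hW]
    exact Module.Finite.span_of_finite ℚ S.finite_toSet
  obtain ⟨d, b⟩ : Σ d : ℕ, Module.Basis (Fin d) ℚ W := ⟨_, Module.finBasis ℚ W⟩
  have hext : ∀ j : Fin d, ∃ lam : ℂ →ₗ[ℚ] ℚ, lam.comp W.subtype = b.coord j := fun j =>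
    LinearMap.exists_extend _
  choose lam hlam using hext
  have hrep : ∀ w ∈ W, w = ∑ j : Fin d, lam j w • (b j : ℂ) := by
    intro w hw
    have h1 := b.sum_repr ⟨w, hw⟩
    have h2 := congrArg (W.subtype) h1
    rw [map_sum] at h2
    have h3 : ∀ j : Fin d, lam j w = b.repr ⟨w, hw⟩ j := by
      intro j
      have := LinearMap.congr_fun (hlam j) ⟨w, hw⟩
      exact this
    calc w = W.subtype ⟨w, hw⟩ := rfl
      _ = ∑ j : Fin d, W.subtype (b.repr ⟨w, hw⟩ j • b j) := h2.symm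
      _ = ∑ j : Fin d, lam j w • (b j : ℂ) := by
        refine Finset.sum_congr rfl fun j _ => ?_
        rw [map_smul, h3]
        rfl
  -- a retraction of `ℚ → ℚ_p`
  obtain ⟨π, hπ⟩ : ∃ π : ℚ_[p] →ₗ[ℚ] ℚ, ∀ n : ℤ, π (n : ℚ_[p]) = n := by
    have hinj : LinearMap.ker (Algebra.linearMap ℚ ℚ_[p]) = ⊥ :=
      LinearMap.ker_eq_bot.mpr (algebraMap ℚ ℚ_[p]).injective
    obtain ⟨π, h⟩ := LinearMap.exists_leftInverse_of_injective _ hinj
    refine ⟨π, fun n => ?_⟩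
    have := LinearMap.congr_fun h (n : ℚ)
    simpa using this
  -- the components
  have hcomp : ∀ j : Fin d, ∃ φ ψ : ℤ → ℤ → ℕ → ℂ, L1S p a φ ψ ∧
      ∀ t : ℕ, t ≤ 2 * a → ∀ x y : ℤ, (x ≠ 0 ∨ y ≠ 0) →
        φ x y t - φ 1 0 t = lam j (Φ x y t - Φ 1 0 t) • (b j : ℂ) := by
    intro j
    have h1 : WSN p a 1 (fun x y i => (lam j).toAddMonoidHom (Φ x y i)) :=
      (hMap p a 1 hp.out.ne_zero ℂ ℚ inferInstance inferInstance (lam j).toAddMonoidHom Φ).1 hΦ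
    obtain ⟨N, Ψ', hN, h2, h3⟩ := hDen hFar hMap p a 1 _ hp.out h1
    have h4 : WSN p a 1 (fun x y i => (Int.castAddHom ℤ_[p]) (Ψ' x y i)) :=
      (hMap p a 1 hp.out.ne_zero ℤ ℤ_[p] inferInstance inferInstance (Int.castAddHom ℤ_[p]) Ψ').1 h2
    obtain ⟨Ψ'', h5⟩ := hyp _ h4
    -- the map `q ↦ (q / N) b_j`
    obtain ⟨μ, hμ⟩ : ∃ μ : ℚ →+ ℂ, ∀ q : ℚ, μ q = ((N : ℚ)⁻¹ * q) • (b j : ℂ) := by
      refine ⟨⟨⟨fun q => ((N : ℚ)⁻¹ * q) • (b j : ℂ), by simp⟩, fun x y => ?_⟩, fun _ => rfl⟩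
      show ((N : ℚ)⁻¹ * (x + y)) • (b j : ℂ) = _
      rw [mul_add, add_smul]
    have h6 := L1S_map (μ.comp π.toAddMonoidHom) h5
    refine ⟨_, _, h6, ?_⟩
    intro t ht x y hxy
    have e1 : ∀ x y : ℤ, (μ.comp π.toAddMonoidHom)
        (((Int.castAddHom ℤ_[p]) (Ψ' x y t) : ℤ_[p]) : ℚ_[p]) = μ ((Ψ' x y t : ℤ) : ℚ) := by
      intro x y
      show μ (π _) = _
      have : (((Int.castAddHom ℤ_[p]) (Ψ' x y t) : ℤ_[p]) : ℚ_[p]) = ((Ψ' x y t : ℤ) : ℚ_[p]) := by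
        simp
      rw [this, hπ]
    simp only [e1]
    rw [← map_sub, hμ]
    have e2 := (h3 t ht).diff hxy (Or.inl one_ne_zero : (1 : ℤ) ≠ 0 ∨ (0 : ℤ) ≠ 0)
    simp only [cp, Pi.smul_apply] at e2
    rw [e2, ← smul_sub]
    congr 1
    have hN' : (N : ℚ) ≠ 0 := by exact_mod_cast hN
    rw [zsmul_eq_mul, ← mul_assoc, inv_mul_cancel₀ hN', one_mul, map_sub]
    rfl
  choose φ ψ hφ hdiff using hcomp
  refine ⟨fun x y i => ∑ j : Fin d, ψ j x y i, ?_⟩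
  refine L1S_congr (L1S_sum Finset.univ φ ψ hφ) ?_
  intro t ht x y hxy
  rw [← Finset.sum_sub_distrib]
  have e : ∀ j ∈ Finset.univ, φ j x y t - φ j 1 0 t = lam j (Φ x y t - Φ 1 0 t) • (b j : ℂ) :=
    fun j _ => hdiff j t ht x y hxy
  rw [Finset.sum_congr rfl e]
  apply hrep
  have hmem := hS t ht x y hxy
  rw [hW]
  have hle : AddSubgroup.closure (S : Set ℂ) ≤ (Submodule.span ℚ (S : Set ℂ)).toAddSubgroup := by
    rw [AddSubgroup.closure_le]
    exact Submodule.subset_span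
  exact hle hmem

end Pool.Agent.Helper9.LV
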