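import Pool.Agent.Helper28.LV.StL

/-!
# Project LV, MODULE MS: extension to the group `SL₂(ℤ)`
-/

set_option autoImplicit false

namespace Pool.Agent.Helper9.LV

open Pool.Agent.Helper14.CV Pool.Agent.Helper28.WK Pool.Agent.Helper28.LV

variable {p : ℕ} [Fact p.Prime]

/-- The set `E` of the docstring of `StMS`. -/
private def EE (H : ℤ → ℤ → ℤ_[p])
    (F : ℤ → ℤ → ℤ → ℤ → ℚ_[p] → ℚ_[p] → ℚ_[p] → ℚ_[p] → ℚ_[p]) (α β γ δ : ℤ) : Prop :=
  ∀ v1 v2 w1 w2 : ℤ, (v1 ≠ 0 ∨ v2 ≠ 0) → (w1 ≠ 0 ∨ w2 ≠ 0) →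
    ((H (α * w1 + β * w2) (γ * w1 + δ * w2) - H (α * v1 + β * v2) (γ * v1 + δ * v2) : ℤ_[p]) :
      ℚ_[p]) = F v1 v2 w1 w2 α β γ δ ∧
    ∀ x y z t : ℚ_[p],
      F (α * v1 + β * v2) (γ * v1 + δ * v2) (α * w1 + β * w2) (γ * w1 + δ * w2) x y z t =
        F v1 v2 w1 w2 (x * α + y * γ) (x * β + y * δ) (z * α + t * γ) (z * β + t * δ)

private lemma EE.mul {H : ℤ → ℤ → ℤ_[p]}
    {F : ℤ → ℤ → ℤ → ℤ → ℚ_[p] → ℚ_[p] → ℚ_[p] → ℚ_[p] → ℚ_[p]}
    {α β γ δ α' β' γ' δ' : ℤ} (h : EE H F α β γ δ) (h' : EE H F α' β' γ' δ')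
    (hdet : α' * δ' - β' * γ' = 1) :
    EE H F (α * α' + β * γ') (α * β' + β * δ') (γ * α' + δ * γ') (γ * β' + δ * δ') := by
  intro v1 v2 w1 w2 hv hw
  have hne : α' * δ' - β' * γ' ≠ 0 := by rw [hdet]; exact one_ne_zero
  obtain ⟨h1, h2⟩ := h _ _ _ _ (ne_zero_of_det hne hv) (ne_zero_of_det hne hw)
  obtain ⟨h3, h4⟩ := h' v1 v2 w1 w2 hv hw
  have e (a b c d x y : ℤ) : (a * α' + b * γ') * x + (a * β' + b * δ') * y =
      a * (α' * x + β' * y) + b * (γ' * x + δ' * y) := by ring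
  refine ⟨?_, ?_⟩
  · rw [e α β 0 0 w1 w2, e γ δ 0 0 w1 w2, e α β 0 0 v1 v2, e γ δ 0 0 v1 v2, h1, h4]
    push_cast
    rfl
  · intro x y z t
    rw [e α β 0 0 w1 w2, e γ δ 0 0 w1 w2, e α β 0 0 v1 v2, e γ δ 0 0 v1 v2, h2, h4]
    congr 1 <;> push_cast <;> ring

theorem hMS : StMS := by
  intro hMC hPl hT hU p hp a H hHom hSym hNb hNc
  have hex : ∀ v1 v2 w1 w2 : ℤ, (v1 ≠ 0 ∨ v2 ≠ 0) → (w1 ≠ 0 ∨ w2 ≠ 0) →
      ∃ F : ℚ_[p] → ℚ_[p] → ℚ_[p] → ℚ_[p] → ℚ_[p], Rg a F ∧ ∀ α β γ δ : ℤ,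
      α * δ - β * γ = 1 → (p : ℤ) ^ 1 ∣ γ →
      ((H (α * w1 + β * w2) (γ * w1 + δ * w2) - H (α * v1 + β * v2) (γ * v1 + δ * v2) : ℤ_[p]) :
        ℚ_[p]) = F α β γ δ := fun v1 v2 w1 w2 hv hw =>
    hMC p hp a 1 H le_rfl hHom hSym hNb (fun c _ => hNc c) v1 v2 w1 w2 hv hw
  choose! F hF using hex
  -- (1) the group `Γ₀(p)`
  have hG0 : ∀ α β γ δ : ℤ, α * δ - β * γ = 1 → (p : ℤ) ^ 1 ∣ γ → EE H F α β γ δ := by
    intro α β γ δ hdet hγ v1 v2 w1 w2 hv hw
    have hne : α * δ - β * γ ≠ 0 := by rw [hdet]; exact one_ne_zero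
    have hv' := ne_zero_of_det hne hv
    have hw' := ne_zero_of_det hne hw
    refine ⟨(hF v1 v2 w1 w2 hv hw).2 α β γ δ hdet hγ, ?_⟩
    have r1 := (hF _ _ _ _ hv' hw').1
    have r2 := (hT p hp a _ (hF v1 v2 w1 w2 hv hw).1).1 (α : ℚ_[p]) β γ δ
    have r3 := (hT p hp a _ r1).2.2.2.1 _ 1 (-1) r2
    have r4 := hU p hp a 1 _ r3 ?_
    · intro x y z t
      have := r4 x y z t
      linear_combination this
    · intro x y z t hd _ _ hz _
      have s1 := (hF _ _ _ _ hv' hw').2 x y z t hd hz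
      have hd2 : (x * α + y * γ) * (z * β + t * δ) - (x * β + y * δ) * (z * α + t * γ) = 1 := by
        have : (x * α + y * γ) * (z * β + t * δ) - (x * β + y * δ) * (z * α + t * γ) =
          (x * t - y * z) * (α * δ - β * γ) := by ring
        rw [this, hd, hdet, one_mul]
      have s2 := (hF v1 v2 w1 w2 hv hw).2 (x * α + y * γ) (x * β + y * δ) (z * α + t * γ)
        (z * β + t * δ) hd2 (dvd_add (hz.mul_right _) (hγ.mul_left _))
      rw [← s1]
      have e (a b x y : ℤ) : (a * α + b * γ) * x + (a * β + b * δ) * y =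
        a * (α * x + β * y) + b * (γ * x + δ * y) := by ring
      rw [e x y w1 w2, e z t w1 w2, e x y v1 v2, e z t v1 v2] at s2
      rw [s2]
      push_cast
      ring
  -- (2) the value at lower unipotent matrices
  have hstar : ∀ c v1 v2 w1 w2 : ℤ, (v1 ≠ 0 ∨ v2 ≠ 0) → (w1 ≠ 0 ∨ w2 ≠ 0) →
      ((H (1 * w1 + 0 * w2) (c * w1 + 1 * w2) - H (1 * v1 + 0 * v2) (c * v1 + 1 * v2) : ℤ_[p]) :
        ℚ_[p]) = F v1 v2 w1 w2 1 0 c 1 := by
    intro c v1 v2 w1 w2 hv hw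
    obtain ⟨hR, hval⟩ := hF v1 v2 w1 w2 hv hw
    obtain ⟨Q, hQ⟩ := hR
    obtain ⟨k, hk⟩ := hNc 1
    have hP : Plf a (fun c : ℤ => H (1 * w1 + 0 * w2) (c * w1 + 1 * w2) -
        H (1 * v1 + 0 * v2) (c * v1 + 1 * v2)) := by
      intro b
      have nz {x y : ℤ} (h : x ≠ 0 ∨ y ≠ 0) : (x ≠ 0 ∨ b * x + y ≠ 0) := by
        by_cases hx : x = 0
        · right
          rcases h with h | h
          · exact absurd hx h
          · rw [hx, mul_zero, zero_add]
            exact h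
        · exact Or.inl hx
      have k1 := hk w1 (b * w1 + w2) (nz hw)
      have k2 := hk v1 (b * v1 + v2) (nz hv)
      simp only [Nc, Pi.zero_apply, zero_add] at k1 k2
      simp only [smul_sub]
      rw [Finset.sum_sub_distrib, sub_eq_zero]
      have e (x y : ℤ) (j : ℕ) : H (1 * x + 0 * y) ((b + (j : ℤ)) * x + 1 * y) =
          H x ((j : ℤ) * 1 * x + (b * x + y)) := by
        congr 1 <;> ring
      simp only [e]
      rw [k1, k2]
    obtain ⟨f, _, hf⟩ := hPl p hp a _ hP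
    obtain ⟨g, hg⟩ : ∃ g : Polynomial ℚ_[p], g = ∑ i ∈ Finset.range (a + 1),
        ∑ j ∈ Finset.range (a + 1), Polynomial.C (Q i j * ((1 : ℚ_[p]) ^ (a - i) * 0 ^ i)) *
          Polynomial.X ^ j := ⟨_, rfl⟩
    have hge : ∀ x : ℚ_[p], g.eval x = F v1 v2 w1 w2 1 0 x 1 := by
      intro x
      rw [hg, hQ, Polynomial.eval_finsetSum]
      refine Finset.sum_congr rfl fun i _ => ?_
      rw [Polynomial.eval_finsetSum]
      refine Finset.sum_congr rfl fun j _ => ?_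
      rw [Polynomial.eval_mul, Polynomial.eval_C, Polynomial.eval_pow, Polynomial.eval_X,
        one_pow (a - j), mul_one]
      ring
    have hfg : f = g := by
      refine Polynomial.eq_of_infinite_eval_eq f g ?_
      refine Set.infinite_of_injective_forall_mem (f := fun m : ℕ => ((p : ℚ_[p]) * (m : ℚ_[p])))
        ?_ ?_
      · intro m m' h
        have hp0 : (p : ℚ_[p]) ≠ 0 := by exact_mod_cast hp.out.ne_zero
        exact_mod_cast mul_left_cancel₀ hp0 h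
      · intro m
        have h1 := hf ((p : ℤ) * m)
        have h2 := hval 1 0 ((p : ℤ) * m) 1 (by ring) (by rw [pow_one]; exact dvd_mul_right _ _)
        show f.eval _ = g.eval _
        rw [hge]
        push_cast at h1 h2 ⊢
        rw [← h1, ← h2]
    rw [← hge, ← hfg]
    exact hf c
  have hn' : ∀ c : ℤ, EE H F 1 0 c 1 := by
    intro c v1 v2 w1 w2 hv hw
    refine ⟨?_, ?_⟩
    · have := hstar c v1 v2 w1 w2 hv hw
      push_cast at this ⊢
      exact this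
    have hne : (1 : ℤ) * 1 - 0 * c ≠ 0 := by norm_num
    have hv' := ne_zero_of_det hne hv
    have hw' := ne_zero_of_det hne hw
    have r1 := (hF _ _ _ _ hv' hw').1
    have r2 := (hT p hp a _ (hF v1 v2 w1 w2 hv hw).1).1 ((1 : ℤ) : ℚ_[p]) ((0 : ℤ) : ℚ_[p])
      ((c : ℤ) : ℚ_[p]) ((1 : ℤ) : ℚ_[p])
    have r3 := (hT p hp a _ r1).2.2.2.1 _ 1 (-1) r2
    have r4 := hU p hp a 2 _ r3 ?_
    · intro x y z t
      have := r4 x y z t
      linear_combination this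
    · intro α β γ δ hd hα hβ hγ hδ
      have s1 := (hF _ _ _ _ hv' hw').2 α β γ δ hd
        (dvd_trans (pow_dvd_pow (p : ℤ) (by norm_num)) hγ)
      -- `x' = n'(-c) x n'(c)`
      have hd' : (α + β * c) * (δ - c * β) - β * (γ - c * α + (δ - c * β) * c) = 1 := by
        linear_combination hd
      have hγ' : (p : ℤ) ^ 1 ∣ γ - c * α + (δ - c * β) * c := by
        have e : γ - c * α + (δ - c * β) * c = γ - c * (α - 1) + c * (δ - 1) - c * c * β := by ring
        rw [e]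
        have hdv : (p : ℤ) ^ 1 ∣ (p : ℤ) ^ 2 := pow_dvd_pow (p : ℤ) (by norm_num)
        exact dvd_sub (dvd_add (dvd_sub (dvd_trans hdv hγ) ((dvd_trans hdv hα).mul_left _))
          ((dvd_trans hdv hδ).mul_left _)) ((dvd_trans hdv hβ).mul_left _)
      have hx' := hG0 _ _ _ _ hd' hγ' v1 v2 w1 w2 hv hw
      have s2 := hx'.2 1 0 c 1
      have hne' : (α + β * c) * (δ - c * β) - β * (γ - c * α + (δ - c * β) * c) ≠ 0 := by
        rw [hd']; exact one_ne_zero
      have s3 := hstar c _ _ _ _ (ne_zero_of_det hne' hv) (ne_zero_of_det hne' hw)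
      rw [s2] at s3
      rw [← s1]
      have e1 : ∀ x y : ℤ, 1 * ((α + β * c) * x + β * y) +
          0 * ((γ - c * α + (δ - c * β) * c) * x + (δ - c * β) * y) =
          α * (1 * x + 0 * y) + β * (c * x + 1 * y) := by intro x y; ring
      have e2 : ∀ x y : ℤ, c * ((α + β * c) * x + β * y) +
          1 * ((γ - c * α + (δ - c * β) * c) * x + (δ - c * β) * y) =
          γ * (1 * x + 0 * y) + δ * (c * x + 1 * y) := by intro x y; ring
      rw [e1 w1 w2, e2 w1 w2, e1 v1 v2, e2 v1 v2] at s3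
      rw [s3]
      have e3 : ∀ (x1 x2 x3 x4 y1 y2 y3 y4 : ℚ_[p]), x1 = y1 → x2 = y2 → x3 = y3 → x4 = y4 →
          1 * F v1 v2 w1 w2 x1 x2 x3 x4 + -1 * F v1 v2 w1 w2 y1 y2 y3 y4 = 0 := by
        intro x1 x2 x3 x4 y1 y2 y3 y4 h1 h2 h3 h4
        rw [h1, h2, h3, h4]
        ring
      apply e3 <;> push_cast <;> ring
  -- (3) generation
  have hS : EE H F 0 1 (-1) 0 := by
    have h1 := (hG0 1 1 0 1 (by norm_num) (dvd_zero _)).mul (hn' (-1)) (by norm_num)
    have h2 := h1.mul (hG0 1 1 0 1 (by norm_num) (dvd_zero _)) (by norm_num)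
    norm_num at h2
    exact h2
  have hall : ∀ (N : ℕ) (α β γ δ : ℤ), γ.natAbs ≤ N → α * δ - β * γ = 1 → EE H F α β γ δ := by
    intro N
    induction N with
    | zero =>
      intro α β γ δ hN hdet
      have : γ = 0 := by omega
      exact hG0 α β γ δ hdet (by rw [this]; exact dvd_zero _)
    | succ N ih =>
      intro α β γ δ hN hdet
      by_cases h0 : γ = 0
      · exact hG0 α β γ δ hdet (by rw [h0]; exact dvd_zero _)
      · have hr : (α % γ).natAbs ≤ N := by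
          have h1 := Int.emod_nonneg α h0
          have h2 := Int.emod_lt_abs α h0
          rw [← Int.natCast_natAbs] at h2
          omega
        have hdm := Int.emod_add_mul_ediv α γ
        -- `g = n(q) (0 1; -1 0) (-γ -δ; r s)`
        have hi := ih (-γ) (-δ) (α % γ) (β - (α / γ) * δ) hr (by
          linear_combination hdet + δ * hdm)
        have h1 := (hG0 1 (α / γ) 0 1 (by ring) (dvd_zero _)).mul hS (by norm_num)
        have h2 := h1.mul hi (by linear_combination hdet + δ * hdm)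
        have e1 : (1 * 0 + α / γ * -1) * -γ + (1 * 1 + α / γ * 0) * (α % γ) = α := by
          linear_combination hdm
        have e2 : (1 * 0 + α / γ * -1) * -δ + (1 * 1 + α / γ * 0) * (β - α / γ * δ) = β := by
          ring
        have e3 : (0 * 0 + 1 * -1) * -γ + (0 * 1 + 1 * 0) * (α % γ) = γ := by ring
        have e4 : (0 * 0 + 1 * -1) * -δ + (0 * 1 + 1 * 0) * (β - α / γ * δ) = δ := by ring
        rw [e1, e2, e3, e4] at h2
        exact h2
  refine ⟨F, fun v1 v2 w1 w2 hv hw => ⟨(hF v1 v2 w1 w2 hv hw).1, fun α β γ δ hdet => ?_⟩⟩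
  exact (hall γ.natAbs α β γ δ le_rfl hdet v1 v2 w1 w2 hv hw).1

end Pool.Agent.Helper9.LV
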